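import Mathlib

/-!
Orders `n` for which non-solvable groups exist but every group with minimal order sequence is
solvable.
-/

namespace Pool.Agent.Results.MP_e15593_al.MinimalOrderSolvable

/-- The order sequence of a finite group: the list of the orders of all its elements,
sorted in nondecreasing order. -/
noncomputable def orderSequence (G : Type) [Group G] [Finite G] : List ℕ :=
  letI := Fintype.ofFinite G
  ((Finset.univ : Finset G).val.map (fun g : G => orderOf g)).sort (· ≤ ·)

/-- `s` dominates `t`: the two lists have the same length and every entry of `s` is at least the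
corresponding entry of `t`. -/
def Dominates (s t : List ℕ) : Prop :=
  List.Forall₂ (fun a b => b ≤ a) s t

/-- The order sequence of `G` is minimal (for domination) among the order sequences of the groups
of the same order. -/
def HasMinimalOrderSequence (G : Type) [Group G] [Finite G] : Prop :=
  ∀ (H : Type) [Group H] [Finite H], Nat.card H = Nat.card G →
    Dominates (orderSequence G) (orderSequence H) → orderSequence H = orderSequence G

/-! ### Small groups -/

lemma solvable_of_normal {K : Type} [Group K] (N : Subgroup K) [N.Normal]
    (h1 : Group.IsSolvable N) (h2 : Group.IsSolvable (K ⧸ N)) : Group.IsSolvable K :=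
  (Group.isSolvable_iff_subgroup_quotient N).2 ⟨h1, h2⟩

lemma solvable_of_prime_pow {K : Type} [Group K] [Finite K] {p k : ℕ} (hp : p.Prime)
    (h : Nat.card K = p ^ k) : Group.IsSolvable K := by
  have := Fact.mk hp
  have : Group.IsNilpotent K := (IsPGroup.of_card h).isNilpotent
  infer_instance

lemma solvable_card_dvd_sixty {K : Type} [Group K] [Finite K] (h : Nat.card K ∣ 60)
    (h' : Nat.card K ≠ 60) : Group.IsSolvable K := by
  have hmem : Nat.card K ∈ Nat.divisors 60 := by
    rw [Nat.mem_divisors]; exact ⟨h, by norm_num⟩
  have hdiv : Nat.divisors 60 = {1, 2, 3, 4, 5, 6, 10, 12, 15, 20, 30, 60} := by decide +kernel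
  rw [hdiv] at hmem
  have hsq : Squarefree (Nat.card K) → Group.IsSolvable K := by
    intro hs
    have := IsZGroup.of_squarefree hs
    infer_instance
  simp only [Finset.mem_insert, Finset.mem_singleton] at hmem
  rcases hmem with h0 | h0 | h0 | h0 | h0 | h0 | h0 | h0 | h0 | h0 | h0 | h0
  · exact hsq (by rw [h0]; decide +kernel)
  · exact hsq (by rw [h0]; decide +kernel)
  · exact hsq (by rw [h0]; decide +kernel)
  · exact solvable_of_prime_pow Nat.prime_two (k := 2) (by rw [h0]; norm_num)
  · exact hsq (by rw [h0]; decide +kernel)
  · exact hsq (by rw [h0]; decide +kernel)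
  · exact hsq (by rw [h0]; decide +kernel)
  · -- order 12
    have : Fact (Nat.Prime 3) := ⟨Nat.prime_three⟩
    let P : Sylow 3 K := default
    have hP : Nat.card P = 3 := by
      have := P.card_eq_multiplicity
      rw [h0] at this
      rw [this]
      have : Nat.factorization 12 3 = 1 := by decide +kernel
      rw [this]; norm_num
    have hidx : (P : Subgroup K).index = 4 := by
      have := (P : Subgroup K).card_mul_index
      rw [h0] at this
      have h3 : Nat.card (P : Subgroup K) = 3 := hP
      rw [h3] at this
      omega
    have hPs : Group.IsSolvable (P : Subgroup K) :=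
      solvable_of_prime_pow Nat.prime_three (k := 1) (by rw [pow_one]; exact hP)
    have hn := P.card_dvd_index
    rw [hidx] at hn
    have hmod := card_sylow_modEq_one 3 K
    have hle := Nat.le_of_dvd (by norm_num) hn
    have hcases : Nat.card (Sylow 3 K) = 1 ∨ Nat.card (Sylow 3 K) = 4 := by
      unfold Nat.ModEq at hmod
      generalize Nat.card (Sylow 3 K) = c at *
      interval_cases c <;> omega
    rcases hcases with hc | hc
    · have : Subsingleton (Sylow 3 K) := (Nat.card_eq_one_iff_unique.1 hc).1
      have := P.normal_of_subsingleton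
      refine solvable_of_normal (P : Subgroup K) hPs ?_
      apply solvable_of_prime_pow Nat.prime_two (k := 2)
      rw [← Subgroup.index_eq_card, hidx]
      norm_num
    · have hnorm : (Subgroup.normalizer (P : Set K)) = P := by
        have h1 := P.card_eq_index_normalizer
        rw [hc] at h1
        have hle : (P : Subgroup K) ≤ Subgroup.normalizer (P : Set K) := Subgroup.le_normalizer
        have h2 := Subgroup.relIndex_mul_index hle
        rw [← h1, hidx] at h2
        have h3 : (P : Subgroup K).relIndex (Subgroup.normalizer (P : Set K)) = 1 := by omega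
        exact le_antisymm (Subgroup.relIndex_eq_one.1 h3) hle
      have hcyc : IsCyclic (P : Subgroup K) := isCyclic_of_prime_card hP
      have hcent : Subgroup.normalizer (P : Set K) ≤ Subgroup.centralizer (P : Set K) := by
        rw [hnorm]
        exact (Subgroup.le_centralizer (P : Subgroup K))
      have hcompl := MonoidHom.ker_transferSylow_isComplement' P hcent
      have hk : Nat.card (MonoidHom.transferSylow P hcent).ker = 4 := by
        have := hcompl.card_mul_card
        rw [h0, show Nat.card (P : Subgroup K) = 3 from hP] at this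
        omega
      have hks : Group.IsSolvable (MonoidHom.transferSylow P hcent).ker :=
        solvable_of_prime_pow Nat.prime_two (k := 2) (by rw [hk]; norm_num)
      refine solvable_of_normal (MonoidHom.transferSylow P hcent).ker hks ?_
      apply solvable_of_prime_pow Nat.prime_three (k := 1)
      rw [← Subgroup.index_eq_card]
      have := (MonoidHom.transferSylow P hcent).ker.card_mul_index
      rw [h0, hk] at this
      omega
  · exact hsq (by rw [h0]; decide +kernel)
  · -- order 20
    have : Fact (Nat.Prime 5) := ⟨Nat.prime_five⟩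
    let P : Sylow 5 K := default
    have hP : Nat.card P = 5 := by
      have := P.card_eq_multiplicity
      rw [h0] at this
      rw [this]
      have : Nat.factorization 20 5 = 1 := by decide +kernel
      rw [this]; norm_num
    have hidx : (P : Subgroup K).index = 4 := by
      have := (P : Subgroup K).card_mul_index
      rw [h0] at this
      have h3 : Nat.card (P : Subgroup K) = 5 := hP
      rw [h3] at this
      omega
    have hPs : Group.IsSolvable (P : Subgroup K) :=
      solvable_of_prime_pow Nat.prime_five (k := 1) (by rw [pow_one]; exact hP)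
    have hn := P.card_dvd_index
    rw [hidx] at hn
    have hmod := card_sylow_modEq_one 5 K
    have hle := Nat.le_of_dvd (by norm_num) hn
    have hc : Nat.card (Sylow 5 K) = 1 := by
      unfold Nat.ModEq at hmod
      generalize Nat.card (Sylow 5 K) = c at *
      interval_cases c <;> omega
    have : Subsingleton (Sylow 5 K) := (Nat.card_eq_one_iff_unique.1 hc).1
    have := P.normal_of_subsingleton
    refine solvable_of_normal (P : Subgroup K) hPs ?_
    apply solvable_of_prime_pow Nat.prime_two (k := 2)
    rw [← Subgroup.index_eq_card, hidx]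
    norm_num
  · exact hsq (by rw [h0]; decide +kernel)
  · exact absurd h0 h'

/-! ### Non-solvable groups of order `60 * p` -/

/-- In a non-solvable group of order `60 * p`, with `p > 60` prime, at most `60` elements have
order less than `p`. -/
lemma card_orderOf_lt {G : Type} [Group G] [Finite G] {p : ℕ} (hp : p.Prime) (hp60 : 60 < p)
    (hG : Nat.card G = 60 * p) (hns : ¬ Group.IsSolvable G) :
    Nat.card {g : G // orderOf g < p} ≤ 60 := by
  have := Fact.mk hp
  have hcop : Nat.Coprime 60 p := by
    rw [Nat.coprime_comm, Nat.Prime.coprime_iff_not_dvd hp]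
    intro h
    have := Nat.le_of_dvd (by norm_num) h
    omega
  let P : Sylow p G := default
  have hP : Nat.card (P : Subgroup G) = p := by
    have h1 := P.card_eq_multiplicity
    rw [hG] at h1
    have h2 : (60 * p).factorization p = 1 := by
      rw [Nat.factorization_mul (by norm_num) hp.ne_zero]
      simp only [Finsupp.coe_add, Pi.add_apply]
      rw [Nat.Prime.factorization_self hp]
      have : Nat.factorization 60 p = 0 := by
        apply Nat.factorization_eq_zero_of_not_dvd
        intro h
        have := Nat.le_of_dvd (by norm_num) h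
        omega
      rw [this]
    rw [h2, pow_one] at h1
    exact h1
  have hidx : (P : Subgroup G).index = 60 := by
    have h1 := (P : Subgroup G).card_mul_index
    rw [hP, hG, mul_comm 60 p] at h1
    exact Nat.eq_of_mul_eq_mul_left hp.pos h1
  have hc : Nat.card (Sylow p G) = 1 := by
    have hn := P.card_dvd_index
    rw [hidx] at hn
    have hle := Nat.le_of_dvd (by norm_num) hn
    have hmod := card_sylow_modEq_one p G
    unfold Nat.ModEq at hmod
    rw [Nat.mod_eq_of_lt (by omega), Nat.mod_eq_of_lt (by omega)] at hmod
    exact hmod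
  have : Subsingleton (Sylow p G) := (Nat.card_eq_one_iff_unique.1 hc).1
  have hnormal := P.normal_of_subsingleton
  -- the subgroup P is central
  have hcyc : IsCyclic (P : Subgroup G) := isCyclic_of_prime_card hP
  set C : Subgroup G := Subgroup.centralizer ((P : Subgroup G) : Set G) with hCdef
  have hCn : C.Normal := by
    rw [hCdef]; infer_instance
  let f : G →* MulAut (P : Subgroup G) := MulAut.conjNormal
  have hker : f.ker ≤ C := by
    intro g hg
    rw [hCdef, Subgroup.mem_centralizer_iff]
    intro h hh
    have h1 : f g ⟨h, hh⟩ = ⟨h, hh⟩ := by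
      rw [MonoidHom.mem_ker] at hg
      rw [hg]; rfl
    have h2 := congrArg (Subtype.val) h1
    rw [MulAut.conjNormal_apply] at h2
    exact (mul_inv_eq_iff_eq_mul.1 h2).symm
  have hMA : Group.IsSolvable (MulAut (P : Subgroup G)) := by
    have e := IsCyclic.mulAutMulEquiv (P : Subgroup G)
    exact Group.isSolvable_of_isSolvable_injective (f := e.toMonoidHom) e.injective
  have hCns : ¬ Group.IsSolvable C := by
    intro hs
    apply hns
    have hks : Group.IsSolvable f.ker :=
      Group.isSolvable_of_isSolvable_injective (f := Subgroup.inclusion hker)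
        (Subgroup.inclusion_injective hker)
    exact Group.isSolvable_of_ker_le_range f.ker.subtype f (by simp)
  have hPC : (P : Subgroup G) ≤ C := by
    rw [hCdef]
    have hcomm : IsMulCommutative (P : Subgroup G) := hcyc.isMulCommutative
    exact Subgroup.le_centralizer (P : Subgroup G)
  have hPCns : ¬ Group.IsSolvable (C ⧸ (P : Subgroup G).subgroupOf C) := by
    intro hs
    apply hCns
    refine solvable_of_normal ((P : Subgroup G).subgroupOf C) ?_ hs
    have hsub : Group.IsSolvable (P : Subgroup G) := by
      apply solvable_of_prime_pow hp (k := 1)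
      rw [pow_one]; exact hP
    exact Group.isSolvable_of_isSolvable_injective
      (f := (Subgroup.subgroupOfEquivOfLe hPC).toMonoidHom)
      (Subgroup.subgroupOfEquivOfLe hPC).injective
  have hrel : (P : Subgroup G).relIndex C * C.index = 60 := by
    rw [Subgroup.relIndex_mul_index hPC, hidx]
  have hcardq : Nat.card (C ⧸ (P : Subgroup G).subgroupOf C) = (P : Subgroup G).relIndex C := by
    rw [← Subgroup.index_eq_card]; rfl
  have hrel60 : (P : Subgroup G).relIndex C = 60 := by
    by_contra hne
    apply hPCns
    apply solvable_card_dvd_sixty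
    · rw [hcardq]; exact Dvd.intro _ hrel
    · rw [hcardq]; exact hne
  have hCtop : C = ⊤ := by
    rw [hrel60] at hrel
    rw [← Subgroup.index_eq_one]
    omega
  -- elements of order less than p satisfy g ^ 60 = 1
  have h60 : ∀ g : G, orderOf g < p → g ^ 60 = 1 := by
    intro g hg
    have h1 : orderOf g ∣ 60 * p := hG ▸ orderOf_dvd_natCard g
    have h2 : Nat.Coprime (orderOf g) p := by
      rw [Nat.coprime_comm, Nat.Prime.coprime_iff_not_dvd hp]
      intro h
      have := Nat.le_of_dvd (orderOf_pos g) h
      omega
    exact orderOf_dvd_iff_pow_eq_one.1 (h2.dvd_of_dvd_mul_right h1)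
  have hinj : Function.Injective
      (fun g : {g : G // orderOf g < p} => (QuotientGroup.mk (s := (P : Subgroup G)) g.1)) := by
    rintro ⟨g, hg⟩ ⟨h, hh⟩ hgh
    have hz : g⁻¹ * h ∈ (P : Subgroup G) := QuotientGroup.eq.1 hgh
    have hcen : g⁻¹ * h ∈ Subgroup.center G := by
      exact Subgroup.centralizer_eq_top_iff_subset.1 hCtop hz
    have hcomm : Commute g (g⁻¹ * h) := (Subgroup.mem_center_iff.1 hcen g)
    have h1 : h = g * (g⁻¹ * h) := by group
    have h2 : h ^ 60 = g ^ 60 * (g⁻¹ * h) ^ 60 := by
      conv_lhs => rw [h1]
      exact hcomm.mul_pow 60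
    rw [h60 g hg, h60 h hh, one_mul] at h2
    have h3 : (g⁻¹ * h) ^ p = 1 := by
      have h4 := orderOf_dvd_natCard (⟨g⁻¹ * h, hz⟩ : (P : Subgroup G))
      rw [hP] at h4
      have h5 := orderOf_dvd_iff_pow_eq_one.1 h4
      have h6 := congrArg Subtype.val h5
      simpa using h6
    have h4 : orderOf (g⁻¹ * h) ∣ Nat.gcd 60 p :=
      Nat.dvd_gcd (orderOf_dvd_of_pow_eq_one h2.symm) (orderOf_dvd_of_pow_eq_one h3)
    rw [hcop] at h4
    have h5 : g⁻¹ * h = 1 := orderOf_eq_one_iff.1 (Nat.dvd_one.1 h4)
    have h6 : g = h := by
      rw [inv_mul_eq_one] at h5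
      exact h5
    exact Subtype.ext h6
  have hle := Nat.card_le_card_of_injective _ hinj
  rw [← Subgroup.index_eq_card, hidx] at hle
  exact hle

/-! ### A Frobenius group of order `60 * p` -/

/-- The action of the group of `60`-th roots of unity of `ZMod p` on `ZMod p` by multiplication. -/
def act (p : ℕ) : (rootsOfUnity 60 (ZMod p)) →* MulAut (Multiplicative (ZMod p)) where
  toFun u :=
    { toFun := fun x => Multiplicative.ofAdd (((u : (ZMod p)ˣ) : ZMod p) * x.toAdd)
      invFun := fun x => Multiplicative.ofAdd ((((u : (ZMod p)ˣ)⁻¹ : (ZMod p)ˣ) : ZMod p) * x.toAdd)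
      left_inv := fun x => by simp
      right_inv := fun x => by simp
      map_mul' := fun x y => by simp [mul_add] }
  map_one' := by ext x; simp
  map_mul' u v := by ext x; simp [mul_assoc]

/-- The Frobenius group. -/
abbrev Frob (p : ℕ) : Type := SemidirectProduct (Multiplicative (ZMod p)) (rootsOfUnity 60 (ZMod p)) (act p)

lemma card_roots {p : ℕ} (hp : p.Prime) (h1 : p ≡ 1 [MOD 60]) :
    Nat.card (rootsOfUnity 60 (ZMod p)) = 60 := by
  have := Fact.mk hp
  obtain ⟨g, hg⟩ := IsCyclic.exists_ofOrder_eq_natCard (α := (ZMod p)ˣ)
  have hcard : Nat.card (ZMod p)ˣ = p - 1 := by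
    rw [Nat.card_eq_fintype_card, ZMod.card_units]
  rw [hcard] at hg
  have hdvd : 60 ∣ p - 1 := (Nat.modEq_iff_dvd' hp.one_lt.le).1 h1.symm
  obtain ⟨c, hc⟩ := hdvd
  have hprim : IsPrimitiveRoot g (p - 1) := hg ▸ IsPrimitiveRoot.orderOf g
  have hpos : 0 < p - 1 := by have := hp.two_le; omega
  have hprim2 : IsPrimitiveRoot (g ^ c) 60 := hprim.pow hpos (by rw [hc, mul_comm])
  exact hprim2.card_rootsOfUnity'

lemma card_frob {p : ℕ} (hp : p.Prime) (h1 : p ≡ 1 [MOD 60]) :
    Nat.card (Frob p) = 60 * p := by
  rw [SemidirectProduct.card, card_roots hp h1, mul_comm]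
  congr 1
  rw [Nat.card_congr Multiplicative.toAdd, Nat.card_zmod]

lemma frob_pow {p : ℕ} (hp : p.Prime) (x : Frob p) : x ^ 60 = 1 ∨ x ^ p = 1 := by
  have := Fact.mk hp
  by_cases hx : x.right = 1
  · right
    have h1 : x = SemidirectProduct.inl x.left := by
      ext
      · rfl
      · rw [hx]; rfl
    rw [h1, ← map_pow]
    have h2 : x.left ^ p = 1 := by
      apply Multiplicative.toAdd.injective
      rw [toAdd_pow, toAdd_one]
      simp
    rw [h2, map_one]
  · left
    -- x is conjugate to inr x.right
    obtain ⟨u, hu⟩ : ∃ u : ZMod p, u = ((x.right : (ZMod p)ˣ) : ZMod p) := ⟨_, rfl⟩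
    have hu1 : 1 - u ≠ 0 := by
      intro h
      apply hx
      apply Subtype.ext
      apply Units.ext
      rw [← hu]
      simp only [OneMemClass.coe_one, Units.val_one]
      exact (sub_eq_zero.1 h).symm
    set y : Multiplicative (ZMod p) := Multiplicative.ofAdd (x.left.toAdd / (1 - u)) with hy
    have hconj : x = SemidirectProduct.inl y * SemidirectProduct.inr x.right *
        (SemidirectProduct.inl y)⁻¹ := by
      ext
      · simp only [SemidirectProduct.mul_left, SemidirectProduct.mul_right,
          SemidirectProduct.left_inl, SemidirectProduct.right_inl, SemidirectProduct.left_inr,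
          SemidirectProduct.right_inr, SemidirectProduct.inv_left, one_mul]
        apply Multiplicative.toAdd.injective
        simp only [map_one, inv_one, MulAut.one_apply, mul_one]
        change x.left.toAdd = y.toAdd + ((x.right : (ZMod p)ˣ) : ZMod p) * (-y.toAdd)
        rw [← hu, hy, toAdd_ofAdd]
        field_simp
        ring
      · simp
    rw [hconj, conj_pow, ← map_pow]
    have h2 : x.right ^ 60 = 1 := by
      have h3 := (mem_rootsOfUnity 60 (x.right : (ZMod p)ˣ)).1 x.right.2
      exact Subtype.ext h3
    rw [h2, map_one, mul_one, mul_inv_cancel]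

instance {p : ℕ} [NeZero p] : Finite (Frob p) := Finite.of_equiv _ SemidirectProduct.equivProd.symm

lemma frob_orderOf_le {p : ℕ} (hp : p.Prime) (h60 : 60 < p) (x : Frob p) : orderOf x ≤ p := by
  rcases frob_pow hp x with h | h
  · exact (orderOf_le_of_pow_eq_one (by norm_num) h).trans h60.le
  · exact orderOf_le_of_pow_eq_one hp.pos h

lemma le_card_frob_two {p : ℕ} (hp : p.Prime) :
    p ≤ Nat.card {x : Frob p // orderOf x ≤ 2} := by
  have := Fact.mk hp
  have hm : (-1 : (ZMod p)ˣ) ∈ rootsOfUnity 60 (ZMod p) := by
    rw [mem_rootsOfUnity]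
    norm_num
  have hinj : Function.Injective (fun a : ZMod p =>
      (⟨⟨Multiplicative.ofAdd a, ⟨-1, hm⟩⟩, by
        apply orderOf_le_of_pow_eq_one (by norm_num)
        rw [pow_two]
        ext
        · rw [SemidirectProduct.mul_left]
          apply Multiplicative.toAdd.injective
          change a + ((-1 : (ZMod p)ˣ) : ZMod p) * a = 0
          simp
        · simp⟩ : {x : Frob p // orderOf x ≤ 2})) := by
    intro a b hab
    have h1 := congrArg (fun z => z.1.left) hab
    exact Multiplicative.ofAdd.injective h1
  have := Nat.card_le_card_of_injective _ hinj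
  rwa [Nat.card_zmod] at this

/-! ### Sorted lists -/

lemma forall2_of_count : ∀ (s t : List ℕ), s.Pairwise (· ≤ ·) → t.Pairwise (· ≤ ·) →
    s.length = t.length → (∀ a, s.countP (· ≤ a) ≤ t.countP (· ≤ a)) →
    List.Forall₂ (fun a b => b ≤ a) s t := by
  intro s
  induction s with
  | nil =>
    intro t _ _ hlen _
    have : t = [] := List.length_eq_zero_iff.1 (by simpa using hlen.symm)
    subst this
    exact List.Forall₂.nil
  | cons x s ih =>
    intro t hs ht hlen hcount
    cases t with
    | nil => simp at hlen
    | cons y t =>
      have hyx : y ≤ x := by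
        by_contra hlt
        push Not at hlt
        have h1 := hcount x
        have h2 : (y :: t).countP (· ≤ x) = 0 := by
          rw [List.countP_eq_zero]
          intro z hz
          rcases List.mem_cons.1 hz with rfl | hz
          · simpa using hlt
          · have := List.rel_of_pairwise_cons ht hz
            simp only [decide_eq_true_eq, not_le]
            omega
        rw [h2, List.countP_cons_of_pos (by simp)] at h1
        omega
      refine List.Forall₂.cons hyx ?_
      refine ih t (List.Pairwise.of_cons hs) (List.Pairwise.of_cons ht) (by simpa using hlen) ?_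
      intro a
      by_cases hxa : x ≤ a
      · have h1 := hcount a
        rw [List.countP_cons_of_pos (by simpa using hxa),
          List.countP_cons_of_pos (by simpa using hyx.trans hxa)] at h1
        omega
      · have h2 : s.countP (· ≤ a) = 0 := by
          rw [List.countP_eq_zero]
          intro z hz
          have := List.rel_of_pairwise_cons hs hz
          simp only [decide_eq_true_eq, not_le]
          omega
        rw [h2]
        exact Nat.zero_le _

lemma countP_orderSequence (G : Type) [Group G] [Finite G] (a : ℕ) :
    (orderSequence G).countP (· ≤ a) = Nat.card {g : G // orderOf g ≤ a} := by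
  classical
  unfold orderSequence
  rw [← Multiset.coe_countP, Multiset.sort_eq, Multiset.countP_map]
  let _ := Fintype.ofFinite G
  rw [Nat.card_eq_fintype_card, Fintype.card_subtype]
  rfl

lemma length_orderSequence (G : Type) [Group G] [Finite G] :
    (orderSequence G).length = Nat.card G := by
  unfold orderSequence
  rw [Multiset.length_sort, Multiset.card_map]
  let _ := Fintype.ofFinite G
  rw [Nat.card_eq_fintype_card]
  rfl

lemma sorted_orderSequence (G : Type) [Group G] [Finite G] :
    (orderSequence G).Pairwise (· ≤ ·) := by
  unfold orderSequence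
  exact Multiset.pairwise_sort _ _

lemma dominates_of_card {G H : Type} [Group G] [Finite G] [Group H] [Finite H]
    (hc : Nat.card G = Nat.card H)
    (h : ∀ a, Nat.card {g : G // orderOf g ≤ a} ≤ Nat.card {g : H // orderOf g ≤ a}) :
    Dominates (orderSequence G) (orderSequence H) := by
  refine forall2_of_count _ _ (sorted_orderSequence G) (sorted_orderSequence H) ?_ ?_
  · rw [length_orderSequence, length_orderSequence, hc]
  · intro a
    rw [countP_orderSequence, countP_orderSequence]
    exact h a

/-! ### The comparison -/

lemma card_orderOf_le_one (G : Type) [Group G] [Finite G] :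
    Nat.card {g : G // orderOf g ≤ 1} = 1 := by
  rw [Nat.card_eq_one_iff_unique]
  refine ⟨⟨?_⟩, ⟨⟨1, by simp⟩⟩⟩
  have key : ∀ a : G, orderOf a ≤ 1 → a = 1 := by
    intro a ha
    have := orderOf_pos a
    exact orderOf_eq_one_iff.1 (by omega)
  rintro ⟨a, ha⟩ ⟨b, hb⟩
  exact Subtype.ext ((key a ha).trans (key b hb).symm)

lemma card_orderOf_mono (G : Type) [Group G] [Finite G] {a b : ℕ} (h : a ≤ b) :
    Nat.card {g : G // orderOf g ≤ a} ≤ Nat.card {g : G // orderOf g ≤ b} :=
  Nat.card_le_card_of_injective (fun g => ⟨g.1, g.2.trans h⟩) (by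
    rintro ⟨a, ha⟩ ⟨b, hb⟩ hab
    simpa using hab)

/-- A non-solvable group of order `60 * p`, `p` a prime congruent to `1` modulo `60`, does not
have minimal order sequence. -/
lemma solvable_of_minimal {p : ℕ} (hp : p.Prime) (h1 : p ≡ 1 [MOD 60]) {G : Type} [Group G]
    [Finite G] (hG : Nat.card G = 60 * p) (hmin : HasMinimalOrderSequence G) :
    Group.IsSolvable G := by
  by_contra hns
  have := Fact.mk hp
  have h60 : 60 < p := by
    by_contra hlt
    unfold Nat.ModEq at h1
    have h2 := hp.two_le
    interval_cases p <;> simp_all <;> norm_num at hp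
  have hlt := card_orderOf_lt hp h60 hG hns
  have hfro := le_card_frob_two hp
  have hcard : Nat.card (Frob p) = Nat.card G := by rw [card_frob hp h1, hG]
  have hcount : ∀ a, Nat.card {g : G // orderOf g ≤ a} ≤
      Nat.card {g : Frob p // orderOf g ≤ a} := by
    intro a
    rcases Nat.lt_or_ge a 2 with ha | ha
    · interval_cases a
      · have : IsEmpty {g : G // orderOf g ≤ 0} := by
          refine ⟨?_⟩
          rintro ⟨g, hg⟩
          have := orderOf_pos g
          omega
        rw [Nat.card_of_isEmpty]
        exact Nat.zero_le _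
      · rw [card_orderOf_le_one, card_orderOf_le_one]
    · rcases Nat.lt_or_ge a p with hap | hap
      · calc Nat.card {g : G // orderOf g ≤ a} ≤ Nat.card {g : G // orderOf g < p} :=
              Nat.card_le_card_of_injective (fun g => ⟨g.1, g.2.trans_lt hap⟩) (by
                rintro ⟨a, ha⟩ ⟨b, hb⟩ hab
                simpa using hab)
          _ ≤ 60 := hlt
          _ ≤ p := h60.le
          _ ≤ _ := hfro
          _ ≤ _ := card_orderOf_mono _ ha
      · calc Nat.card {g : G // orderOf g ≤ a} ≤ Nat.card G :=
              Nat.card_le_card_of_injective _ Subtype.val_injective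
          _ = Nat.card (Frob p) := hcard.symm
          _ ≤ _ := Nat.card_le_card_of_injective
              (fun g => ⟨g, (frob_orderOf_le hp h60 g).trans hap⟩) (by
                intro a b hab
                simpa using hab)
  have heq := hmin (Frob p) hcard (dominates_of_card hcard.symm hcount)
  have h2 := countP_orderSequence (Frob p) 2
  rw [heq, countP_orderSequence G 2] at h2
  have h3 : Nat.card {g : G // orderOf g ≤ 2} ≤ Nat.card {g : G // orderOf g < p} :=
    Nat.card_le_card_of_injective (fun g => ⟨g.1, g.2.trans_lt (by omega)⟩) (by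
      rintro ⟨a, ha⟩ ⟨b, hb⟩ hab
      simpa using hab)
  omega

lemma exists_nonsolvable {p : ℕ} (hp : p.Prime) :
    ∃ (G : Type) (_ : Group G) (_ : Finite G), Nat.card G = 60 * p ∧ ¬ Group.IsSolvable G := by
  have := Fact.mk hp
  refine ⟨alternatingGroup (Fin 5) × Multiplicative (ZMod p), inferInstance, inferInstance, ?_, ?_⟩
  · rw [Nat.card_prod, Nat.card_congr Multiplicative.toAdd, Nat.card_zmod]
    congr 1
    have h2 := two_mul_nat_card_alternatingGroup (α := Fin 5)
    rw [Nat.card_perm, Nat.card_fin] at h2
    have : Nat.factorial 5 = 120 := by decide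
    omega
  · intro hs
    have h1 : Group.IsSolvable (alternatingGroup (Fin 5)) :=
      Group.isSolvable_of_surjective (f := MonoidHom.fst (alternatingGroup (Fin 5))
        (Multiplicative (ZMod p))) Prod.fst_surjective
    apply Equiv.Perm.not_isSolvable_fin_5
    refine Group.isSolvable_of_ker_le_range (alternatingGroup (Fin 5)).subtype
      (Equiv.Perm.sign : Equiv.Perm (Fin 5) →* ℤˣ) ?_
    rw [Subgroup.range_subtype]
    exact le_of_eq (alternatingGroup_eq_sign_ker).symm

/-- There are infinitely many `n` such that some group of order `n` is non-solvable, but every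
group of order `n` whose order sequence is minimal is solvable. -/
theorem result :
    Set.Infinite {n : ℕ |
      (∃ (G : Type) (_ : Group G) (_ : Finite G), Nat.card G = n ∧ ¬ Group.IsSolvable G) ∧
      (∀ (G : Type) [Group G] [Finite G], Nat.card G = n →
        HasMinimalOrderSequence G → Group.IsSolvable G)} := by
  have hinf := Nat.infinite_setOfPred_prime_modEq_one (k := 60) (by norm_num)
  have himg : Set.Infinite ((fun p : ℕ => 60 * p) '' {p : ℕ | Nat.Prime p ∧ p ≡ 1 [MOD 60]}) :=
    hinf.image (fun a _ b _ hab => Nat.eq_of_mul_eq_mul_left (by norm_num) hab)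
  refine himg.mono ?_
  rintro _ ⟨p, ⟨hp, h1⟩, rfl⟩
  exact ⟨exists_nonsolvable hp, fun G _ _ hG hmin => solvable_of_minimal hp h1 hG hmin⟩

end Pool.Agent.Results.MP_e15593_al.MinimalOrderSolvable
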